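import Mathlib
import Pool.Agent.NIPFields.FI.Ring

set_option autoImplicit false

/-!
# Multiplicative subgroups with many elements of the form `1 + a δ` (as `LG/Defs.lean`)

`K ⊆ k` are fields; `J` is the set of `K`-infinitesimals of `k` with respect to the group `T`.
-/

namespace Pool.Agent.NIPFields.LS

open Pool.Agent.NIPFields.FI

/-- A multiplicative subgroup of a field, given as a set. -/
class IsGrp {k : Type*} [Field k] (T : Set k) : Prop where
  one : (1 : k) ∈ T
  ne : ∀ x ∈ T, x ≠ 0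
  mul : ∀ x ∈ T, ∀ y ∈ T, x * y ∈ T
  inv : ∀ x ∈ T, x⁻¹ ∈ T

/-- The properties of an elementary extension `k` of `K` and of the extension `T` of a definable
multiplicative subgroup of `K` that are used. -/
structure SD (K k : Type*) [Field K] [Field k] [Algebra K k] (T : Set k) : Prop where
  ne : ∃ a : K, a ≠ 0 ∧ algebraMap K k a ∉ T
  add : ∃ F : Finset K, ∀ α : k, (∀ f ∈ F, 1 + algebraMap K k f * α ∈ T) →
    ∀ β : k, (∀ f ∈ F, 1 + algebraMap K k f * β ∈ T) → 1 + α + β ∈ T
  small : ∀ G : Finset k, ∃ ε : k, ε ≠ 0 ∧ ∀ g ∈ G, g * ε ∈ Inf K T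
  tl : ∀ A : Finset K, ∃ c : K, c ≠ 0 ∧ ∀ a ∈ A, 1 + algebraMap K k (a * c) ∈ T

section

variable {k : Type*} [Field k] {T : Set k} [hT : IsGrp T]

theorem T_one : (1 : k) ∈ T := hT.one

theorem T_ne {x : k} (h : x ∈ T) : x ≠ 0 := hT.ne x h

theorem T_mul {x y : k} (hx : x ∈ T) (hy : y ∈ T) : x * y ∈ T := hT.mul x hx y hy

theorem T_inv {x : k} (hx : x ∈ T) : x⁻¹ ∈ T := hT.inv x hx

end

section

variable {K k : Type*} [Field K] [Field k] [Algebra K k] {T : Set k} [IsGrp T]

theorem zero_mem_Inf : (0 : k) ∈ Inf K T := by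
  intro a
  rw [mul_zero, add_zero]
  exact T_one

theorem one_add_ne {ε : k} (h : ε ∈ Inf K T) : 1 + ε ≠ 0 := T_ne (one_add_mem h)

variable (D : SD K k T)

include D

theorem SD.add_mem {α β : k} (hα : α ∈ Inf K T) (hβ : β ∈ Inf K T) :
    α + β ∈ Inf K T := by
  intro a
  obtain ⟨F, hF⟩ := D.add
  have h1 := hF _ (fun f _ => smul_mem a hα f) _ (fun f _ => smul_mem a hβ f)
  rwa [add_assoc, ← mul_add] at h1

theorem SD.sub_mem {α β : k} (hα : α ∈ Inf K T) (hβ : β ∈ Inf K T) :
    α - β ∈ Inf K T := by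
  rw [sub_eq_add_neg]
  exact D.add_mem hα (neg_mem hβ)

theorem SD.sum_mem {ι : Type*} (s : Finset ι) (f : ι → k)
    (h : ∀ i ∈ s, f i ∈ Inf K T) : ∑ i ∈ s, f i ∈ Inf K T := by
  classical
  induction s using Finset.induction_on with
  | empty => rw [Finset.sum_empty]; exact zero_mem_Inf
  | insert i s hi ih =>
    rw [Finset.sum_insert hi]
    exact D.add_mem (h i (Finset.mem_insert_self _ _))
      (ih fun j hj => h j (Finset.mem_insert_of_mem hj))

omit D in
theorem div_mem {α : k} (hα : α ∈ Inf K T) : α / (1 + α) ∈ Inf K T := by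
  intro a
  have h1 : 1 + algebraMap K k a * (α / (1 + α)) =
      (1 + algebraMap K k (1 + a) * α) * (1 + α)⁻¹ := by
    have := one_add_ne hα
    rw [map_add, map_one]
    field_simp
    ring
  rw [h1]
  exact T_mul (hα _) (T_inv (one_add_mem hα))

theorem SD.mul_mem' {α β : k} (hα : α ∈ Inf K T) (hβ : β ∈ Inf K T) :
    1 - α * β ∈ T := by
  have h1 := div_mem hα
  have h2 := div_mem hβ
  have e1 := one_add_ne hα
  have e2 := one_add_ne hβ
  have h3 : 1 - α * β = (1 + -(α / (1 + α) + β / (1 + β))) *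
      ((1 + -(α / (1 + α)))⁻¹ * (1 + -(β / (1 + β)))⁻¹) := by
    have e3 : 1 + -(α / (1 + α)) = (1 + α)⁻¹ := by field_simp; ring
    have e4 : 1 + -(β / (1 + β)) = (1 + β)⁻¹ := by field_simp; ring
    rw [e3, e4, inv_inv, inv_inv]
    field_simp
    ring
  rw [h3]
  exact T_mul (one_add_mem (neg_mem (D.add_mem h1 h2)))
    (T_mul (T_inv (one_add_mem (neg_mem h1))) (T_inv (one_add_mem (neg_mem h2))))

theorem SD.mul_mem {α β : k} (hα : α ∈ Inf K T) (hβ : β ∈ Inf K T) :
    α * β ∈ Inf K T := by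
  intro a
  have := D.mul_mem' (smul_mem (-a) hα) hβ
  rw [map_neg, neg_mul, neg_mul, sub_neg_eq_add, mul_assoc] at this
  exact this

omit D in
theorem inf_const {a : K} (h : algebraMap K k a ∈ Inf K T) : a = 0 := by
  by_contra ha
  have := h (-a⁻¹)
  rw [map_neg, neg_mul, ← map_mul, inv_mul_cancel₀ ha, map_one, add_neg_cancel] at this
  exact T_ne this rfl

omit D in
theorem one_notMem : (1 : k) ∉ Inf K T := by
  intro h
  rw [← map_one (algebraMap K k)] at h
  exact one_ne_zero (inf_const h)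

/-- The additive group of infinitesimals. -/
def SD.J : AddSubgroup k where
  carrier := Inf K T
  add_mem' := fun ha hb => D.add_mem ha hb
  zero_mem' := zero_mem_Inf
  neg_mem' := fun ha => neg_mem ha

/-- The `K`-space `{d : d / g ∈ J for g ∈ G}`. -/
def SD.I (G : Finset k) : Submodule K k where
  carrier := {d | ∀ g ∈ G, d / g ∈ Inf K T}
  add_mem' := by
    intro a b ha hb g hg
    rw [add_div]
    exact D.add_mem (ha g hg) (hb g hg)
  zero_mem' := by
    intro g _
    rw [zero_div]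
    exact zero_mem_Inf
  smul_mem' := by
    intro a x hx g hg
    rw [Algebra.smul_def, mul_div_assoc]
    exact smul_mem a (hx g hg)

theorem SD.mem_I {G : Finset k} {d : k} : d ∈ D.I G ↔ ∀ g ∈ G, d / g ∈ Inf K T := Iff.rfl

/-- The ring `(I : I)`. -/
def SD.E (G : Finset k) : Subring k where
  carrier := {z | ∀ d ∈ D.I G, z * d ∈ D.I G}
  mul_mem' := by
    intro x y hx hy d hd
    rw [mul_assoc]
    exact hx _ (hy _ hd)
  one_mem' := by
    intro d hd
    rwa [one_mul]
  add_mem' := by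
    intro x y hx hy d hd
    rw [add_mul]
    exact (D.I G).add_mem (hx _ hd) (hy _ hd)
  zero_mem' := by
    intro d _
    rw [zero_mul]
    exact (D.I G).zero_mem
  neg_mem' := by
    intro x hx d hd
    rw [neg_mul]
    exact (D.I G).neg_mem (hx _ hd)

theorem SD.mem_E {G : Finset k} {z : k} : z ∈ D.E G ↔ ∀ d ∈ D.I G, z * d ∈ D.I G := Iff.rfl

theorem SD.mem_I_one {d : k} : d ∈ D.I {1} ↔ d ∈ Inf K T := by
  rw [D.mem_I]
  constructor
  · intro h
    have := h 1 (Finset.mem_singleton_self 1)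
    rwa [div_one] at this
  · intro h g hg
    rw [Finset.mem_singleton.1 hg, div_one]
    exact h

/-- The ring `O` of bounded elements is `E {1}`. -/
theorem SD.mem_O {z : k} : z ∈ D.E {1} ↔ ∀ j ∈ Inf K T, z * j ∈ Inf K T := by
  rw [D.mem_E]
  constructor
  · intro h j hj
    exact D.mem_I_one.1 (h j (D.mem_I_one.2 hj))
  · intro h d hd
    exact D.mem_I_one.2 (h d (D.mem_I_one.1 hd))

theorem SD.O_le_E {G : Finset k} {z : k} (hz : z ∈ D.E {1}) : z ∈ D.E G := by
  intro d hd g hg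
  rw [mul_div_assoc]
  exact D.mem_O.1 hz _ (hd g hg)

theorem SD.algebraMap_mem_O (a : K) : algebraMap K k a ∈ D.E {1} :=
  D.mem_O.2 fun _ hj => smul_mem a hj

theorem SD.algebraMap_mem (G : Finset k) (a : K) : algebraMap K k a ∈ D.E G :=
  D.O_le_E (D.algebraMap_mem_O a)

theorem SD.inf_mem_O {j : k} (hj : j ∈ Inf K T) : j ∈ D.E {1} :=
  D.mem_O.2 fun _ hj' => D.mul_mem hj hj'

theorem SD.I_le_J {G : Finset k} (h1 : (1 : k) ∈ G) {d : k} (hd : d ∈ D.I G) :
    d ∈ Inf K T := by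
  have := hd 1 h1
  rwa [div_one] at this

theorem SD.I_le_E {G : Finset k} (h1 : (1 : k) ∈ G) {d : k} (hd : d ∈ D.I G) : d ∈ D.E G :=
  D.O_le_E (D.inf_mem_O (D.I_le_J h1 hd))

/-- `I` is not zero. -/
theorem SD.exists_mem_I (G : Finset k) : ∃ d ∈ D.I G, d ≠ 0 := by
  classical
  obtain ⟨ε, hε, h⟩ := D.small (G.image fun g => g⁻¹)
  refine ⟨ε, fun g hg => ?_, hε⟩
  rw [div_eq_mul_inv, mul_comm]
  exact h _ (Finset.mem_image_of_mem _ hg)

/-- A single witness for finitely many elements. -/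
theorem SD.exists_witness [Infinite K] (G : Finset k) (W : Finset k) :
    ∃ j ∈ D.I G, ∀ w ∈ W, w ∈ D.E G ↔ w * j ∈ D.I G := by
  classical
  -- the proper subspaces
  let P : k → Submodule K (D.I G) := fun w =>
    (D.I G).comap ((LinearMap.mulLeft K w).comp (D.I G).subtype)
  have hP : ∀ w j, j ∈ P w ↔ w * (j : k) ∈ D.I G := fun _ _ => Iff.rfl
  let S : Finset (Submodule K (D.I G)) := (W.filter fun w => w ∉ D.E G).image P
  have hS : (⊤ : Submodule K (D.I G)) ∉ S := by
    intro h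
    obtain ⟨w, hw, hwt⟩ := Finset.mem_image.1 h
    apply (Finset.mem_filter.1 hw).2
    intro d hd
    have h1 : (⟨d, hd⟩ : D.I G) ∈ P w := by rw [hwt]; trivial
    exact (hP _ _).1 h1
  obtain ⟨j, hj⟩ : ∃ j : D.I G, ∀ Q ∈ S, j ∉ Q := by
    by_contra hcon
    push Not at hcon
    apply Subspace.biUnion_ne_univ_of_top_notMem (s := S) hS
    rw [Set.eq_univ_iff_forall]
    intro j
    obtain ⟨Q, hQ, hjQ⟩ := hcon j
    exact Set.mem_iUnion₂.2 ⟨Q, hQ, hjQ⟩
  refine ⟨j, j.2, fun w hw => ?_⟩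
  constructor
  · intro h
    exact h _ j.2
  · intro h
    by_contra hwE
    exact hj (P w) (Finset.mem_image_of_mem _ (Finset.mem_filter.2 ⟨hw, hwE⟩)) h

end

section

variable {K k : Type*} [Field K] [Field k] [Algebra K k] {T : Set k} [IsGrp T]

variable (K T) in
/-- The set `{u : 1 + f u ∈ T for f ∈ F}`. -/
def UT (F : Finset K) : Set k :=
  {u | ∀ f ∈ F, 1 + algebraMap K k f * u ∈ T}

theorem Inf_subset_UT (F : Finset K) {u : k} (hu : u ∈ Inf K T) : u ∈ UT K T F :=
  fun f _ => hu f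

/-- The property of `F` in Step B2. -/
def UGd (K : Type*) {k : Type*} [Field K] [Field k] [Algebra K k] (T : Set k) (F : Finset K) :
    Prop :=
  ∀ u ∈ UT K T F, ∀ v ∈ UT K T F, 1 - u * v ∈ T

theorem SD.exists_UGd (D : SD K k T) : ∃ F : Finset K, UGd K T F := by
  classical
  obtain ⟨F, hF⟩ := D.add
  refine ⟨insert 1 (F.image fun f => 1 - f), fun u hu v hv => ?_⟩
  have key : ∀ u ∈ UT K T (insert 1 (F.image fun f => 1 - f)), 1 + u ∈ T ∧
      ∀ f ∈ F, 1 + algebraMap K k f * -(u / (1 + u)) ∈ T := by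
    intro u hu
    have h1 := hu 1 (Finset.mem_insert_self _ _)
    rw [map_one, one_mul] at h1
    refine ⟨h1, fun f hf => ?_⟩
    have h2 := hu (1 - f) (Finset.mem_insert_of_mem (Finset.mem_image_of_mem _ hf))
    have h3 : 1 + algebraMap K k f * -(u / (1 + u)) =
        (1 + algebraMap K k (1 - f) * u) * (1 + u)⁻¹ := by
      have := T_ne h1
      rw [map_sub, map_one]
      field_simp
      ring
    rw [h3]
    exact T_mul h2 (T_inv h1)
  obtain ⟨u1, u2⟩ := key u hu
  obtain ⟨v1, v2⟩ := key v hv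
  have h := hF _ u2 _ v2
  have e1 := T_ne u1
  have e2 := T_ne v1
  have h3 : 1 - u * v = (1 + -(u / (1 + u)) + -(v / (1 + v))) * ((1 + u) * (1 + v)) := by
    field_simp
    ring
  rw [h3]
  exact T_mul h (T_mul u1 v1)

theorem UGd.mem_O (D : SD K k T) {F : Finset K} (hF : UGd K T F) {u : k}
    (hu : u ∈ UT K T F) : u ∈ D.E {1} := by
  rw [D.mem_O]
  intro j hj a
  have h1 := hF u hu _ (Inf_subset_UT F (smul_mem (-a) hj))
  have h2 : 1 - u * (algebraMap K k (-a) * j) = 1 + algebraMap K k a * (u * j) := by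
    rw [map_neg]; ring
  rwa [h2] at h1

/-- Finitely many elements: being infinitesimal is detected by one scaling. -/
theorem UGd.exists_scale (D : SD K k T) {F : Finset K} (hF : UGd K T F) (Z : Finset k) :
    ∃ c : K, c ≠ 0 ∧ ∀ z ∈ Z, z ∈ Inf K T ↔ z / algebraMap K k c ∈ UT K T F := by
  classical
  have h1 : ∀ z : k, ∃ a : K, z ∉ Inf K T → 1 + algebraMap K k a * z ∉ T := by
    intro z
    by_cases hz : z ∈ Inf K T
    · exact ⟨0, fun h => absurd hz h⟩
    · have h2 : ∃ a : K, 1 + algebraMap K k a * z ∉ T := by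
        by_contra hcon
        push Not at hcon
        exact hz hcon
      obtain ⟨a, ha⟩ := h2
      exact ⟨a, fun _ => ha⟩
  choose a ha using h1
  obtain ⟨c, hc, hcF⟩ := D.tl ((Z ×ˢ F).image fun x => -(x.2 * a x.1))
  have hc' : algebraMap K k c ≠ 0 := (map_ne_zero _).2 hc
  refine ⟨c, hc, fun z hz => ?_⟩
  constructor
  · intro h
    have h2 := smul_mem c⁻¹ h
    rw [map_inv₀, inv_mul_eq_div] at h2
    exact Inf_subset_UT F h2
  · intro h
    by_contra hzJ
    apply ha z hzJ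
    have h2 : algebraMap K k (-(a z * c)) ∈ UT K T F := by
      intro f hf
      have h3 := hcF (-(f * a z)) (Finset.mem_image.2
        ⟨(z, f), Finset.mem_product.2 ⟨hz, hf⟩, rfl⟩)
      rw [← map_mul]
      convert h3 using 3
      ring
    have h3 := hF _ h2 _ h
    have h4 : 1 - algebraMap K k (-(a z * c)) * (z / algebraMap K k c) =
        1 + algebraMap K k (a z) * z := by
      rw [map_neg, map_mul]
      field_simp
      ring
    rwa [h4] at h3

end

end Pool.Agent.NIPFields.LS
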