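import Mathlib
import Pool.Agent.NIPFields.LS.Defs
import Pool.Agent.NIPFields.LG.Germ
import Pool.Agent.NIPFields.LG.In
import Pool.Agent.NIPFields.LV.GPrime
import Pool.Agent.NIPFields.PQ.Sauer
import Pool.Agent.NIPFields.THens

set_option autoImplicit false

/-!
# The ultrapower of a field with a definable multiplicative group (as `LG/Germ.lean`)
-/

namespace Pool.Agent.NIPFields.LS

open FirstOrder FirstOrder.Language FirstOrder.Ring Set Filter IsLocalRing
open Pool.Agent.NIPFields.FI
open Pool.Agent.NIPFields.LG (Pw mem_Pw_germ exists_add_of_TL)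
open Pool.Agent.NIPFields.LV (TLS TrLe)

universe u v w

section

variable {L : Type u} [Field L]

/-- The extension of a set to the ultrapower. -/
def TE (T : Set L) : Set (Germ (UF L : Filter (Finset L)) L) := {x | x.LiftPred fun z => z ∈ T}

theorem mem_TE {T : Set L} {f : Finset L → L} :
    (↑f : Germ (UF L : Filter (Finset L)) L) ∈ TE T ↔
      ∀ᶠ t in (UF L : Filter (Finset L)), f t ∈ T := Iff.rfl

instance {T : Set L} [IsGrp T] : IsGrp (TE T) where
  one := by
    rw [← Germ.coe_one, mem_TE]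
    exact Eventually.of_forall fun _ => T_one
  ne := by
    intro x hx
    induction x using Germ.inductionOn with | _ f
    rw [mem_TE] at hx
    rintro h0
    rw [← Germ.coe_zero, Germ.coe_eq] at h0
    obtain ⟨t, h1, h2⟩ := (hx.and h0).exists
    exact T_ne h1 h2
  mul := by
    intro x hx y hy
    induction x using Germ.inductionOn with | _ f
    induction y using Germ.inductionOn with | _ g
    rw [mem_TE] at hx hy
    rw [← Germ.coe_mul, mem_TE]
    filter_upwards [hx, hy] with t h1 h2
    exact T_mul h1 h2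
  inv := by
    intro x hx
    induction x using Germ.inductionOn with | _ f
    rw [mem_TE] at hx
    rw [← Germ.coe_inv, mem_TE]
    filter_upwards [hx] with t h1
    exact T_inv h1

theorem Pw_subset_TE {T : Set L} {ℓ : ℕ} (h : Pw L ℓ ⊆ T) :
    Pw (Germ (UF L : Filter (Finset L)) L) ℓ ⊆ TE T := by
  intro x hx
  induction x using Germ.inductionOn with | _ f
  rw [mem_Pw_germ] at hx
  rw [mem_TE]
  filter_upwards [hx] with t ht
  exact h ht

/-- The group as a subgroup of the units. -/
def grp (T : Set L) [IsGrp T] : Subgroup Lˣ where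
  carrier := {u | (u : L) ∈ T}
  mul_mem' := by
    intro a b ha hb
    show ((a * b : Lˣ) : L) ∈ T
    rw [Units.val_mul]
    exact T_mul ha hb
  one_mem' := by
    show ((1 : Lˣ) : L) ∈ T
    rw [Units.val_one]
    exact T_one
  inv_mem' := by
    intro a ha
    show ((a⁻¹ : Lˣ) : L) ∈ T
    rw [Units.val_inv_eq_inv_val]
    exact T_inv ha

theorem col_grp {T : Set L} [IsGrp T] {x : L} : col (grp T) x = 1 ↔ x ∈ T := by
  rw [col_eq_one]
  constructor
  · rintro ⟨y, hy, rfl⟩
    exact hy
  · intro h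
    exact ⟨Units.mk0 x (T_ne h), h, rfl⟩

/-- The VC dimension of the relation `1 + a x ∈ T`. -/
theorem vc_T [CompatibleRing L] (hL : NIP L) {T : Set L}
    (hTd : (univ : Set L).Definable₁ Language.ring T) :
    ∃ d : ℕ, ∀ y : Fin d → L, ∃ J : Finset (Fin d), ∀ x : L,
      ∃ i, ¬ (1 + y i * x ∈ T ↔ i ∈ J) := by
  have hR : (univ : Set L).Definable Language.ring {w : Fin 1 ⊕ Fin 1 → L |
      1 + w (Sum.inl 0) * w (Sum.inr 0) ∈ T} :=
    def_mem hTd (dfun_add dfun_one (dfun_mul (dfun_var _) (dfun_var _)))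
  obtain ⟨A, hA, hAR⟩ := definable_iff_finitely_definable.1 hR
  obtain ⟨n, hn⟩ := hL.definable (A : Set L) A.finite_toSet _ hAR
  refine ⟨n, fun y => ?_⟩
  by_contra hcon
  push Not at hcon
  choose x hx using hcon
  obtain ⟨i, J, hiJ⟩ := hn (fun i _ => y i) (fun J _ => x J)
  apply hiJ
  rw [← hx J i]
  rfl

/-- The number of traces. -/
theorem trLe_T [CompatibleRing L] (hL : NIP L) {T : Set L}
    (hTd : (univ : Set L).Definable₁ Language.ring T) :
    ∃ d : ℕ, 2 ≤ d ∧ TrLe L T fun m => ∑ k ∈ Finset.range d, m.choose k := by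
  obtain ⟨d₀, hd₀⟩ := vc_T hL hTd
  refine ⟨d₀ + 2, by omega, fun m b => (PQ.trLe_of_vc hd₀ m b).trans ?_⟩
  exact Finset.sum_le_sum_of_subset (Finset.range_mono (by omega))

end

attribute [local instance] germAlg

theorem sd_germ {K : Type u} [Field K] [CompatibleRing K] (hK : NIP K) {T : Set K} [IsGrp T]
    (hTd : (univ : Set K).Definable₁ Language.ring T)
    (hTL : TLS K T) (hne : ∃ a : K, a ≠ 0 ∧ a ∉ T) :
    @SD K (Germ (UF K : Filter (Finset K)) K) _ _ (germAlg K) (TE T) := by
  classical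
  let c := col (grp T)
  have hcP : ∀ x : K, c x = 1 ↔ x ∈ T := fun x => col_grp
  refine ⟨?_, ?_, ?_, ?_⟩
  · -- not everything is in the group
    obtain ⟨a, ha, haP⟩ := hne
    refine ⟨a, ha, fun h => haP ?_⟩
    rw [alg_apply, mem_TE] at h
    obtain ⟨t, ht⟩ := h.exists
    exact ht
  · -- addition
    obtain ⟨F, hF⟩ := exists_add_of_TL c
      (fun F => by
        obtain ⟨δ, hδ, h⟩ := hTL F
        exact ⟨δ, hδ, fun f hf => (hcP _).2 (h f hf)⟩)
      (by
        obtain ⟨a, ha, haP⟩ := hne
        exact ⟨a, ha, fun h => haP ((hcP a).1 h)⟩)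
      (by
        obtain ⟨d, hd⟩ := vc_T hK hTd
        refine ⟨d, fun y => ?_⟩
        obtain ⟨J, hJ⟩ := hd y
        refine ⟨J, fun x => ?_⟩
        obtain ⟨i, hi⟩ := hJ x
        exact ⟨i, fun h => hi ((hcP _).symm.trans h)⟩)
    refine ⟨F, fun α hα β hβ => ?_⟩
    induction α using Germ.inductionOn with | _ f
    induction β using Germ.inductionOn with | _ g
    have h1 : ∀ᶠ t in (UF K : Filter (Finset K)), ∀ a ∈ F, 1 + a * f t ∈ T := by
      rw [Filter.eventually_all_finset]
      exact fun a ha => (mem_TE (f := fun t => 1 + a * f t)).1 (hα a ha)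
    have h2 : ∀ᶠ t in (UF K : Filter (Finset K)), ∀ a ∈ F, 1 + a * g t ∈ T := by
      rw [Filter.eventually_all_finset]
      exact fun a ha => (mem_TE (f := fun t => 1 + a * g t)).1 (hβ a ha)
    rw [← Germ.coe_one, ← Germ.coe_add, ← Germ.coe_add, mem_TE]
    filter_upwards [h1, h2] with t e1 e2
    exact (hcP _).1 (hF _ (fun a ha => (hcP _).2 (e1 a ha)) _ (fun a ha => (hcP _).2 (e2 a ha)))
  · -- small elements
    intro G
    choose rep hrep using fun g : Germ (UF K : Filter (Finset K)) K =>
      (Quotient.exists_rep g : ∃ f : Finset K → K, (↑f : Germ (UF K : Filter (Finset K)) K) = g)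
    choose δ hδ0 hδ using fun t : Finset K =>
      hTL ((t ×ˢ G).image (fun x => x.1 * rep x.2 t))
    refine ⟨(↑δ : Germ (UF K : Filter (Finset K)) K), ?_, fun g hg a => ?_⟩
    · intro h0
      rw [← Germ.coe_zero, Germ.coe_eq] at h0
      obtain ⟨t, ht⟩ := h0.exists
      exact hδ0 t ht
    · have h1 : (1 + algebraMap K (Germ (UF K : Filter (Finset K)) K) a *
          (g * (↑δ : Germ (UF K : Filter (Finset K)) K))) =
          (↑(fun t => 1 + a * (rep g t * δ t)) : Germ (UF K : Filter (Finset K)) K) := by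
        conv_lhs => rw [← hrep g]
        rfl
      rw [h1, mem_TE]
      filter_upwards [eventually_mem a] with t ht
      have h2 := hδ t (a * rep g t) (Finset.mem_image.2
        ⟨(a, g), Finset.mem_product.2 ⟨ht, hg⟩, rfl⟩)
      rwa [mul_assoc] at h2
  · -- scaling
    intro A
    obtain ⟨δ, hδ, h⟩ := hTL A
    refine ⟨δ, hδ, fun a ha => ?_⟩
    exact (mem_TE (f := fun _ => 1 + a * δ)).2 (Eventually.of_forall fun _ => h a ha)

end Pool.Agent.NIPFields.LS
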