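import Mathlib
import Pool.Agent.NIPFields.LG.Kummer
import Pool.Agent.NIPFields.LS.ASNip

/-!
# Elements `1 + z`, `z` in the maximal ideal, are `ℓ`-th powers (as `LG/Kummer.lean`)
-/

set_option autoImplicit false

namespace Pool.Agent.NIPFields.LS

open FirstOrder FirstOrder.Language FirstOrder.Ring Set Filter IsLocalRing
open Pool.Agent.NIPFields.FI
open Pool.Agent.NIPFields.LG (Pw exists_kummer_data)
open scoped Polynomial

universe u v w

/-- **Step E2.** Elements `1 + z`, `z` in the maximal ideal, are `ℓ`-th powers. -/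
theorem SD.one_add_mem_Pw {p : ℕ} [hp : Fact p.Prime] {K : Type v} {k : Type u} [Field K]
    [CharP K p] [Infinite K] [Field k] [Algebra K k] [CompatibleRing k] (hk : NIP k) {T : Set k}
    [IsGrp T] (hTd : (univ : Set k).Definable₁ Language.ring T) {ℓ : ℕ} (hℓ : ℓ.Prime)
    (hℓp : ℓ ≠ p) (D : SD K k T) {G : Finset k} (h1 : (1 : k) ∈ G)
    (h0 : ∀ g ∈ G, g ≠ 0) [IsLocalRing (D.E G)] {z : D.E G} (hz : z ∈ maximalIdeal (D.E G)) :
    1 + (z : k) ∈ Pw k ℓ := by
  classical
  by_contra hcon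
  -- `1 + z` is not an `ℓ`-th power
  have hunit : ∀ w : D.E G, w ∈ maximalIdeal (D.E G) → (w : k) ≠ 1 ∧ 1 + (w : k) ≠ 0 := by
    intro w hw
    constructor
    · intro h
      have h2 : w = 1 := Subtype.ext h
      rw [h2] at hw
      exact (IsLocalRing.maximalIdeal.isMaximal (D.E G)).ne_top
        ((Ideal.eq_top_iff_one _).2 hw)
    · intro h
      have h2 : w = -1 := Subtype.ext (by push_cast; linear_combination h)
      rw [h2] at hw
      have h3 := neg_mem hw
      rw [neg_neg] at h3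
      exact (IsLocalRing.maximalIdeal.isMaximal (D.E G)).ne_top
        ((Ideal.eq_top_iff_one _).2 h3)
  have hno : ∀ b : k, b ^ ℓ ≠ 1 + (z : k) := by
    intro b hb
    apply hcon
    refine ⟨b, ?_, hb.symm⟩
    rintro rfl
    rw [zero_pow hℓ.pos.ne'] at hb
    exact (hunit z hz).2 hb.symm
  obtain ⟨Q, _, _, b, α, B, J, hb, hα, hB, hJ, hJB, hunitJ⟩ :=
    exists_kummer_data (D.E G) hℓ z hno
  have hAS := D.as_surj hk hTd h1 h0 b (maximalIdeal (D.E G)) B hB J hJ hJB hunitJ
  have hℓ2 : 2 ≤ ℓ := hℓ.two_le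
  -- the inverse of `ℓ`
  have : CharP k p := charP_of_injective_algebraMap (algebraMap K k).injective p
  have : CharP Q p := charP_of_injective_algebraMap (algebraMap k Q).injective p
  have hℓk : (ℓ : k) ≠ 0 := by
    intro h
    rw [CharP.cast_eq_zero_iff k p] at h
    exact hℓp ((Nat.prime_dvd_prime_iff_eq hp.out hℓ).1 h).symm
  have hinvE : (ℓ : k)⁻¹ ∈ D.E G := by
    have := D.algebraMap_mem G (ℓ : K)⁻¹
    rwa [map_inv₀, map_natCast] at this
  -- coordinates of constants
  have hconst : ∀ w : k, ∀ m : Fin ℓ, b.repr (algebraMap k Q w) m = if (m : ℕ) = 0 then w else 0 := by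
    intro w m
    have h2 : algebraMap k Q w = w • b ⟨0, hℓ.pos⟩ := by
      rw [hb, pow_zero, Algebra.smul_def, mul_one]
    rw [h2, map_smul, Module.Basis.repr_self, Finsupp.smul_apply, Finsupp.single_apply, smul_eq_mul]
    by_cases hm : (m : ℕ) = 0
    · rw [if_pos hm, if_pos (Fin.ext hm.symm), mul_one]
    · rw [if_neg hm, if_neg (fun h => hm (by rw [← h])), mul_zero]
  have hconstB : ∀ w ∈ D.E G, algebraMap k Q w ∈ B := by
    intro w hw
    rw [hB]
    intro m
    rw [hconst]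
    split_ifs
    · exact hw
    · exact zero_mem _
  have hconstJ : ∀ w : D.E G, w ∈ maximalIdeal (D.E G) → algebraMap k Q (w : k) ∈ J := by
    intro w hw
    rw [hJ]
    intro m
    have h2 := hconst (w : k) m
    by_cases hm : (m : ℕ) = 0
    · rw [if_pos hm] at h2
      refine ⟨by rw [h2]; exact w.2, ?_⟩
      convert hw
    · rw [if_neg hm] at h2
      refine ⟨by rw [h2]; exact zero_mem _, ?_⟩
      convert (maximalIdeal (D.E G)).zero_mem
      rw [h2]
      rfl
  have hαB : α ∈ B := by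
    rw [hB]
    intro m
    have h2 : α = b ⟨1, hℓ2⟩ := by rw [hb, pow_one]
    rw [h2, Module.Basis.repr_self, Finsupp.single_apply]
    split_ifs
    · exact one_mem _
    · exact zero_mem _
  -- the element `e`
  set c : Q := algebraMap k Q (ℓ : k)⁻¹ with hc
  have hcB : c ∈ B := hconstB _ hinvE
  have hcℓ : (ℓ : Q) * c = 1 := by
    rw [hc, ← map_natCast (algebraMap k Q), ← map_mul, mul_inv_cancel₀ hℓk, map_one]
  set e : Q := c * ∑ i ∈ Finset.range ℓ, α ^ i with he
  have heB : e ∈ B := B.mul_mem hcB (B.sum_mem fun i _ => B.pow_mem hαB i)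
  have hrepr_e : ∀ m, b.repr e m = (ℓ : k)⁻¹ := by
    intro m
    have h2 : e = ∑ i, (ℓ : k)⁻¹ • b i := by
      rw [he, Finset.mul_sum, ← Fin.sum_univ_eq_sum_range (fun i => c * α ^ i) ℓ]
      refine Finset.sum_congr rfl fun i _ => ?_
      rw [hb, Algebra.smul_def]
    rw [h2, Module.Basis.repr_sum_self]
  have hαe : α * e - e ∈ J := by
    have h2 : α * e - e = algebraMap k Q (((⟨_, hinvE⟩ : D.E G) * z : D.E G) : k) := by
      have h3 : (α - 1) * ∑ i ∈ Finset.range ℓ, α ^ i = α ^ ℓ - 1 := mul_geom_sum α ℓ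
      have h4 : α * e - e = c * ((α - 1) * ∑ i ∈ Finset.range ℓ, α ^ i) := by
        rw [he]; ring
      have h5 : (((⟨_, hinvE⟩ : D.E G) * z : D.E G) : k) = (ℓ : k)⁻¹ * (z : k) := rfl
      rw [h4, h3, hα, h5, map_add, map_one, map_mul, ← hc]
      ring
    rw [h2]
    exact hconstJ _ (Ideal.mul_mem_left _ _ hz)
  have hαme : ∀ m : ℕ, α ^ m * e - e ∈ J := by
    intro m
    induction m with
    | zero =>
      rw [pow_zero, one_mul, sub_self]
      exact J.zero_mem
    | succ m ih =>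
      have h2 : α ^ (m + 1) * e - e = α * (α ^ m * e - e) + (α * e - e) := by ring
      rw [h2]
      exact J.add_mem (hJB _ ih _ hαB) hαe
  have hee : e * e - e ∈ J := by
    have h2 : e * e - e = ∑ i ∈ Finset.range ℓ, c * (α ^ i * e - e) := by
      have h3 : ∑ i ∈ Finset.range ℓ, c * (α ^ i * e - e) =
          (c * ∑ i ∈ Finset.range ℓ, α ^ i) * e - ((ℓ : Q) * c) * e := by
        rw [← Finset.mul_sum, Finset.sum_sub_distrib, ← Finset.sum_mul, Finset.sum_const,
          Finset.card_range, nsmul_eq_mul]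
        ring
      rw [h3, hcℓ, one_mul, ← he]
    rw [h2]
    exact J.sum_mem fun i _ => hJB _ (hαme i) _ hcB
  have hepow : ∀ n : ℕ, e ^ (n + 1) - e ∈ J := by
    intro n
    induction n with
    | zero =>
      rw [zero_add, pow_one, sub_self]
      exact J.zero_mem
    | succ n ih =>
      have h2 : e ^ (n + 1 + 1) - e = e * (e ^ (n + 1) - e) + (e * e - e) := by ring
      rw [h2]
      exact J.add_mem (hJB _ ih _ heB) hee
  have hep : e ^ p - e ∈ J := by
    have := hepow (p - 1)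
    rwa [Nat.sub_add_cancel hp.out.one_le] at this
  obtain ⟨u, huJ, hu⟩ := hAS _ hep
  -- `e - u` is in the prime field
  have hfix : (e - u) ^ p = e - u := by
    rw [sub_pow_char]
    linear_combination -hu
  have hbot : e - u ∈ (⊥ : Subfield Q) := (Subfield.mem_bot_iff_pow_eq_self Q p).2 hfix
  have hrange : e - u ∈ (algebraMap k Q).fieldRange :=
    (bot_le : (⊥ : Subfield Q) ≤ (algebraMap k Q).fieldRange) hbot
  obtain ⟨w, hw⟩ := hrange
  have hu1 : b.repr u ⟨1, hℓ2⟩ = (ℓ : k)⁻¹ := by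
    have h2 : u = e - algebraMap k Q w := by rw [hw]; ring
    rw [h2, map_sub, Finsupp.sub_apply, hrepr_e, hconst, if_neg (by simp), sub_zero]
  obtain ⟨h2, h3⟩ := (hJ u).1 huJ ⟨1, hℓ2⟩
  have hnat : (ℓ : k) ∈ D.E G := natCast_mem _ ℓ
  have h4 := Ideal.mul_mem_left (maximalIdeal (D.E G)) (⟨_, hnat⟩ : D.E G) h3
  refine (hunit _ h4).1 ?_
  show (ℓ : k) * b.repr u ⟨1, hℓ2⟩ = 1
  rw [hu1, mul_inv_cancel₀ hℓk]

end Pool.Agent.NIPFields.LS
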