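import Mathlib
import Pool.Agent.NIPFields.LS.ASNip
import Pool.Agent.NIPFields.Definable

set_option autoImplicit false

/-!
# Finite width (as `LG/In.lean`)
-/

namespace Pool.Agent.NIPFields.LS

open FirstOrder FirstOrder.Language FirstOrder.Ring Set
open Pool.Agent.NIPFields.FI

universe u v

/-- The condition `(I_n)`. -/
def InS (K : Type*) {k : Type*} [Field K] [Field k] [Algebra K k] (T : Set k) (n : ℕ) : Prop :=
  ∀ g : Fin n → k, (∀ i, g i ≠ 0) → ∃ i, ∀ d : k,
    (∀ j, j ≠ i → d / g j ∈ Inf K T) → d / g i ∈ Inf K T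

theorem InS.succ {K k : Type*} [Field K] [Field k] [Algebra K k] {T : Set k} {n : ℕ}
    (h : InS K T n) : InS K T (n + 1) := by
  intro g hg
  obtain ⟨i, hi⟩ := h (fun i => g i.castSucc) (fun i => hg _)
  refine ⟨i.castSucc, fun d hd => hi d fun j hj => hd _ fun h => hj ?_⟩
  exact Fin.castSucc_injective _ h

theorem InS.mono {K k : Type*} [Field K] [Field k] [Algebra K k] {T : Set k} {n m : ℕ} (hnm : n ≤ m)
    (h : InS K T n) : InS K T m := by
  induction m, hnm using Nat.le_induction with
  | base => exact h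
  | succ m _ ih => exact ih.succ

section

variable {K : Type v} {k : Type u} [Field K] [Field k] [Algebra K k] [CompatibleRing k]

theorem SD.exists_InS (hk : NIP k) {T : Set k} [IsGrp T]
    (hTd : (univ : Set k).Definable₁ Language.ring T) (D : SD K k T) :
    ∃ n : ℕ, 2 ≤ n ∧ InS K T n := by
  classical
  obtain ⟨F, hF⟩ := D.exists_UGd
  have hR : (univ : Set k).Definable Language.ring {w : Fin 1 ⊕ Fin 2 → k |
      w (Sum.inr 0) * w (Sum.inl 0) * w (Sum.inr 1) ∈ UT K T F} :=
    def_mem (def_UT hTd F) (dfun_mul (dfun_mul (dfun_var _) (dfun_var _)) (dfun_var _))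
  obtain ⟨A, hA, hAR⟩ := definable_iff_finitely_definable.1 hR
  obtain ⟨n, hn⟩ := hk.definable (A : Set k) A.finite_toSet _ hAR
  refine ⟨max n 2, le_max_right _ _, InS.mono (le_max_left n 2) ?_⟩
  intro g hg
  by_contra hcon
  push Not at hcon
  choose d hd1 hd2 using hcon
  let s : Finset (Fin n) → k := fun S => ∑ i ∈ S, d i
  have hs : ∀ j S, s S / g j ∈ Inf K T ↔ j ∉ S := by
    intro j S
    have h0 : s S / g j = ∑ i ∈ S, d i / g j := Finset.sum_div _ _ _
    constructor
    · intro h hj
      rw [h0, ← Finset.add_sum_erase _ _ hj] at h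
      have h1 : ∑ i ∈ S.erase j, d i / g j ∈ Inf K T :=
        D.sum_mem _ _ fun i hi => hd1 i j (Finset.ne_of_mem_erase hi).symm
      have h2 := D.sub_mem h h1
      rw [add_sub_cancel_right] at h2
      exact hd2 j h2
    · intro hj
      rw [h0]
      refine D.sum_mem _ _ fun i hi => hd1 i j ?_
      rintro rfl
      exact hj hi
  obtain ⟨c, hc, hcZ⟩ := hF.exists_scale D
    ((Finset.univ : Finset (Fin n × Finset (Fin n))).image fun x => s x.2 / g x.1)
  obtain ⟨i, J, hiJ⟩ := hn (fun i _ => (g i)⁻¹)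
    (fun J => ![s Jᶜ, (algebraMap K k c)⁻¹])
  apply hiJ
  have h1 := hcZ (s Jᶜ / g i) (Finset.mem_image_of_mem _ (Finset.mem_univ (i, Jᶜ)))
  rw [hs, Finset.mem_compl, not_not] at h1
  rw [h1]
  simp only [mem_ofPred_eq, Sum.elim_inr, Sum.elim_inl, Matrix.cons_val_zero,
    Matrix.cons_val_one]
  rw [div_eq_mul_inv, div_eq_mul_inv]

end

section

variable {K : Type v} {k : Type u} [Field K] [Field k] [Algebra K k]

theorem SD.finite_maximal {T : Set k} [IsGrp T] (D : SD K k T) {n : ℕ} (hn : 2 ≤ n)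
    (hIn : InS K T n) {G : Finset k} (h0 : ∀ g ∈ G, g ≠ 0) :
    Finite (MaximalSpectrum (D.E G)) := by
  classical
  by_contra hinf
  rw [not_finite_iff_infinite] at hinf
  obtain ⟨S, hS⟩ := Infinite.exists_subset_card_eq (MaximalSpectrum (D.E G)) n
  let e : Fin n ≃ S := (Fintype.equivFinOfCardEq (by rw [Fintype.card_coe, hS])).symm
  let M : Fin n → Ideal (D.E G) := fun x => (e x : MaximalSpectrum (D.E G)).asIdeal
  have hM : ∀ x, (M x).IsMaximal := fun x => (e x : MaximalSpectrum (D.E G)).isMaximal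
  have hco : Pairwise fun x x' => IsCoprime (M x) (M x') := by
    intro x x' hxx'
    have h1 : M x ≠ M x' := by
      intro h
      apply hxx'
      apply e.injective
      apply Subtype.ext
      exact MaximalSpectrum.ext h
    exact Ideal.isCoprime_iff_sup_eq.2 ((hM x).coprime_of_ne (hM x') h1)
  -- elements of exactly one of the ideals
  have hex : ∀ i, ∃ r : D.E G, r ∈ M i ∧ ∀ j, j ≠ i → r - 1 ∈ M j := by
    intro i
    obtain ⟨r, hr⟩ := Ideal.exists_forall_sub_mem_ideal (I := M) hco
      (fun j => if j = i then 0 else 1)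
    refine ⟨r, ?_, fun j hj => ?_⟩
    · have := hr i
      rwa [if_pos rfl, sub_zero] at this
    · have := hr j
      rwa [if_neg hj] at this
  choose r hr1 hr2 using hex
  have hr0 : ∀ i, (r i : k) ≠ 0 := by
    intro i h
    have h2 : r i = 0 := Subtype.ext h
    obtain ⟨j, hj⟩ : ∃ j : Fin n, j ≠ i := by
      have : Nontrivial (Fin n) := Fin.nontrivial_iff_two_le.2 hn
      exact exists_ne i
    have h3 := hr2 i j hj
    rw [h2, zero_sub] at h3
    exact (hM j).ne_top ((Ideal.eq_top_iff_one _).2 (by simpa using (M j).neg_mem h3))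
  let P : Fin n → D.E G := fun i => ∏ j ∈ Finset.univ.erase i, r j
  have hP : ∀ i, P i ∉ M i := by
    intro i h
    obtain ⟨j, hj, hjM⟩ := (hM i).isPrime.prod_mem_iff.1 h
    have h1 := hr2 j i (Finset.ne_of_mem_erase hj).symm
    have h2 := (M i).sub_mem hjM h1
    rw [sub_sub_cancel] at h2
    exact (hM i).ne_top ((Ideal.eq_top_iff_one _).2 h2)
  have hPE : ∀ i, (P i : k) / r i ∉ D.E G := by
    intro i h
    apply hP i
    have h1 : P i = ⟨_, h⟩ * r i := by
      apply Subtype.ext
      push_cast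
      rw [div_mul_cancel₀ _ (hr0 i)]
    rw [h1]
    exact (M i).mul_mem_left _ (hr1 i)
  have hw : ∀ i, ∃ t g : k, t ∈ D.I G ∧ g ∈ G ∧
      t * ((P i : k) / r i) / g ∉ Inf K T := by
    intro i
    by_contra hcon
    push Not at hcon
    apply hPE i
    intro t ht g hg
    rw [mul_comm]
    exact hcon t g ht hg
  choose t g ht hg htg using hw
  obtain ⟨i, hi⟩ := hIn (fun i => r i * g i) (fun i => mul_ne_zero (hr0 i) (h0 _ (hg i)))
  have h1 := hi (t i * P i) (by
    intro j hj
    have h2 : (P i : k) / r j ∈ D.E G := by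
      have h3 : P i = r j * ∏ x ∈ (Finset.univ.erase i).erase j, r x :=
        (Finset.mul_prod_erase _ _ (Finset.mem_erase.2 ⟨hj, Finset.mem_univ j⟩)).symm
      have h4 : (P i : k) / r j = ((∏ x ∈ (Finset.univ.erase i).erase j, r x : D.E G) : k) := by
        rw [h3, Subring.coe_mul, mul_div_cancel_left₀ _ (hr0 j)]
      rw [h4]
      exact Subtype.mem _
    have h5 := h2 _ (ht i) _ (hg j)
    have h6 : t i * (P i : k) / (r j * g j) = (P i : k) / r j * t i / g j := by
      rw [mul_comm (t i), mul_div_mul_comm, div_mul_div_comm]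
      ring
    rw [h6]
    exact h5)
  apply htg i
  have h7 : t i * ((P i : k) / r i) / g i = t i * (P i : k) / (r i * g i) := by
    rw [mul_div_assoc', div_div]
  rw [h7]
  exact h1

end

end Pool.Agent.NIPFields.LS
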