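import Mathlib
import Pool.Agent.NIPFields.LS.Local
import Pool.Agent.NIPFields.LS.Kummer

set_option autoImplicit false

/-!
# If `O` is not a valuation ring (as `LG/Tower.lean`)
-/

namespace Pool.Agent.NIPFields.LS

open FirstOrder FirstOrder.Language FirstOrder.Ring Set IsLocalRing
open Pool.Agent.NIPFields.FI
open Pool.Agent.NIPFields.LG (Pw)

universe u v w

section

variable {p : ℕ} [hp : Fact p.Prime] {K : Type v} {k : Type u} [Field K]
  [CharP K p] [Infinite K] [Field k] [Algebra K k] [CompatibleRing k]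

/-- The maximal ideal of `E G` consists of infinitesimals. -/
theorem SD.maximal_le (hk : NIP k) {T : Set k} [IsGrp T]
    (hTd : (univ : Set k).Definable₁ Language.ring T) {ℓ : ℕ} (hℓ : ℓ.Prime) (hℓp : ℓ ≠ p)
    (hPT : Pw k ℓ ⊆ T) (D : SD K k T)
    {G : Finset k} (h1 : (1 : k) ∈ G) (h0 : ∀ g ∈ G, g ≠ 0) [IsLocalRing (D.E G)] {z : D.E G}
    (hz : z ∈ maximalIdeal (D.E G)) : (z : k) ∈ Inf K T := by
  intro a
  have h : (⟨algebraMap K k a, D.algebraMap_mem G a⟩ : D.E G) * z ∈ maximalIdeal (D.E G) :=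
    Ideal.mul_mem_left _ _ hz
  exact hPT (D.one_add_mem_Pw hk hTd hℓ hℓp h1 h0 h)

theorem SD.add_algebraMap_ne {T : Set k} [IsGrp T] (D : SD K k T) {y : k}
    (hy : y ∉ D.E {1}) (x : K) :
    y + algebraMap K k x ≠ 0 := by
  intro h
  apply hy
  rw [eq_neg_of_add_eq_zero_left h, ← map_neg]
  exact D.algebraMap_mem_O _

theorem SD.add_algebraMap_notMem {T : Set k} [IsGrp T] (D : SD K k T) {y : k}
    (hy : y ∉ D.E {1}) (x : K) :
    y + algebraMap K k x ∉ D.E {1} := by
  intro h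
  apply hy
  have h2 := (D.E {1}).sub_mem h (D.algebraMap_mem_O x)
  rwa [add_sub_cancel_right] at h2

/-- Step F1, F2: a finite set `G` such that `y ∈ E G` and `G` consists of units. -/
theorem SD.exists_tower_card (hk : NIP k) {T : Set k} [IsGrp T]
    (hTd : (univ : Set k).Definable₁ Language.ring T) {ℓ : ℕ} (hℓ : ℓ.Prime) (hℓp : ℓ ≠ p)
    (hPT : Pw k ℓ ⊆ T) (D : SD K k T)
    {n : ℕ} (hn : 2 ≤ n) (hIn : InS K T n) {y : k}
    (hy : y ∉ D.E {1}) (hy' : y⁻¹ ∉ D.E {1}) :
    ∃ G : Finset k, G.card ≤ n ∧ (∀ g ∈ G, g = 1 ∨ ∃ x : K, g = y + algebraMap K k x) ∧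
      (1 : k) ∈ G ∧ (∀ g ∈ G, g ≠ 0) ∧ IsLocalRing (D.E G) ∧ y ∈ D.E G ∧
      ∀ g ∈ G, ∃ h : g ∈ D.E G, IsUnit (⟨g, h⟩ : D.E G) := by
  classical
  obtain ⟨m, rfl⟩ : ∃ m, n = m + 2 := ⟨n - 2, by omega⟩
  let xs : ℕ → K := Infinite.natEmbedding K
  have hxs : Function.Injective xs := (Infinite.natEmbedding K).injective
  let g : Fin (m + 2) → k := fun i => if i = 0 then 1 else y + algebraMap K k (xs i)
  have hg0 : g 0 = 1 := if_pos rfl
  have hg1 : ∀ i, i ≠ 0 → g i = y + algebraMap K k (xs i) := fun i hi => if_neg hi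
  have hgne : ∀ i, g i ≠ 0 := by
    intro i
    by_cases hi : i = 0
    · rw [hi, hg0]; exact one_ne_zero
    · rw [hg1 i hi]; exact D.add_algebraMap_ne hy _
  -- the index
  obtain ⟨i₀, hi₀, hcase⟩ : ∃ i₀ : Fin (m + 2), i₀ ≠ 0 ∧
      ((∀ d : k, (∀ j, j ≠ i₀ → d / g j ∈ Inf K T) → d / g i₀ ∈ Inf K T) ∨
      (∀ d : k, (∀ j, j ≠ 0 → d / g j ∈ Inf K T) → d / g 0 ∈ Inf K T)) := by
    obtain ⟨i, hi⟩ := hIn g hgne
    by_cases h0 : i = 0
    · subst h0
      exact ⟨1, by simp, Or.inr hi⟩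
    · exact ⟨i, h0, Or.inl hi⟩
  let G : Finset k := (Finset.univ.erase i₀).image g
  have hG : ∀ j, j ≠ i₀ → g j ∈ G := fun j hj =>
    Finset.mem_image_of_mem _ (Finset.mem_erase.2 ⟨hj, Finset.mem_univ j⟩)
  have hG' : ∀ x ∈ G, ∃ j, j ≠ i₀ ∧ x = g j := by
    intro x hx
    obtain ⟨j, hj, rfl⟩ := Finset.mem_image.1 hx
    exact ⟨j, Finset.ne_of_mem_erase hj, rfl⟩
  have h1G : (1 : k) ∈ G := by
    rw [← hg0]
    exact hG 0 hi₀.symm
  have h0G : ∀ x ∈ G, x ≠ 0 := by
    intro x hx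
    obtain ⟨j, _, rfl⟩ := hG' x hx
    exact hgne j
  have hI : ∀ d, d ∈ D.I G ↔ ∀ j, j ≠ i₀ → d / g j ∈ Inf K T := by
    intro d
    constructor
    · intro h j hj
      exact h _ (hG j hj)
    · intro h x hx
      obtain ⟨j, hj, rfl⟩ := hG' x hx
      exact h j hj
  have hloc : IsLocalRing (D.E G) := D.isLocalRing hk hTd h1G h0G
  -- `g i₀ ∈ E`
  have hgE : g i₀ ∈ D.E G := by
    rcases hcase with ha | hb
    · have hu : (g i₀)⁻¹ ∈ D.E G := by
        intro d hd
        have hd' := (hI d).1 hd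
        rw [hI]
        intro j hj
        by_cases hj0 : j = 0
        · rw [hj0, hg0, div_one, inv_mul_eq_div]
          exact ha d hd'
        · have hne : xs j - xs i₀ ≠ 0 := by
            intro h
            apply hj
            exact Fin.ext (hxs (sub_eq_zero.1 h))
          have h2 := smul_mem (xs j - xs i₀)⁻¹ (D.sub_mem (ha d hd') (hd' j hj))
          have h3 : (g i₀)⁻¹ * d / g j =
              algebraMap K k (xs j - xs i₀)⁻¹ * (d / g i₀ - d / g j) := by
            have h4 : algebraMap K k (xs j - xs i₀) = g j - g i₀ := by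
              rw [hg1 j hj0, hg1 i₀ hi₀, map_sub]
              ring
            have h5 : g j - g i₀ ≠ 0 := by
              rw [← h4]
              exact (map_ne_zero _).2 hne
            rw [map_inv₀, h4]
            have := hgne j
            have := hgne i₀
            field_simp
          rw [h3]
          exact h2
      have hunit : IsUnit (⟨_, hu⟩ : D.E G) := by
        by_contra hnu
        have h2 : (g i₀)⁻¹ ∈ Inf K T :=
          D.maximal_le hk hTd hℓ hℓp hPT h1G h0G ((mem_maximalIdeal _).2 hnu)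
        apply hy'
        by_cases hx : xs i₀ = 0
        · rw [hg1 i₀ hi₀, hx, map_zero, add_zero] at h2
          exact D.inf_mem_O h2
        · have h3 := smul_mem (-(xs i₀)⁻¹) (div_mem (smul_mem (-xs i₀) h2))
          have h4 : algebraMap K k (-(xs i₀)⁻¹) * (algebraMap K k (-xs i₀) * (g i₀)⁻¹ /
              (1 + algebraMap K k (-xs i₀) * (g i₀)⁻¹)) = y⁻¹ := by
            have h5 : y = g i₀ - algebraMap K k (xs i₀) := by
              rw [hg1 i₀ hi₀]; ring
            have h6 : algebraMap K k (xs i₀) ≠ 0 := (map_ne_zero _).2 hx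
            have h7 := hgne i₀
            have h8 : y ≠ 0 := by
              have := D.add_algebraMap_ne hy 0
              rwa [map_zero, add_zero] at this
            have h9 : 1 + algebraMap K k (-xs i₀) * (g i₀)⁻¹ = y * (g i₀)⁻¹ := by
              rw [h5, map_neg, sub_mul, mul_inv_cancel₀ h7]
              ring
            rw [h9, map_neg, map_neg, map_inv₀]
            field_simp
          rw [h4] at h3
          exact D.inf_mem_O h3
      obtain ⟨v, hv⟩ := hunit.exists_right_inv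
      have h2 : (g i₀)⁻¹ * (v : k) = 1 := congrArg Subtype.val hv
      have h3 : g i₀ = v := by
        have := hgne i₀
        field_simp at h2
        exact h2.symm
      rw [h3]
      exact v.2
    · intro d hd
      have hd' := (hI d).1 hd
      have hd0 : d ∈ Inf K T := by
        have := hd' 0 hi₀.symm
        rwa [hg0, div_one] at this
      have h2 : ∀ j, j ≠ 0 → g i₀ * d / g j ∈ Inf K T := by
        intro j hj
        by_cases hji : j = i₀
        · rw [hji, mul_div_cancel_left₀ _ (hgne i₀)]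
          exact hd0
        · have h3 : g i₀ * d / g j = d + algebraMap K k (xs i₀ - xs j) * (d / g j) := by
            have h4 : g i₀ = g j + algebraMap K k (xs i₀ - xs j) := by
              rw [hg1 j hj, hg1 i₀ hi₀, map_sub]
              ring
            have := hgne j
            rw [h4]
            field_simp
          rw [h3]
          exact D.add_mem hd0 (smul_mem _ (hd' j hji))
      rw [hI]
      intro j _
      by_cases hj : j = 0
      · rw [hj]
        exact hb _ h2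
      · exact h2 j hj
  have hyE : y ∈ D.E G := by
    have h2 := (D.E G).sub_mem hgE (D.algebraMap_mem G (xs i₀))
    rwa [hg1 i₀ hi₀, add_sub_cancel_right] at h2
  have hcard : G.card ≤ m + 2 :=
    Finset.card_image_le.trans ((Finset.card_le_univ _).trans (Fintype.card_fin _).le)
  refine ⟨G, hcard, fun x hx => ?_, h1G, h0G, hloc, hyE, fun x hx => ?_⟩
  · obtain ⟨j, hj, rfl⟩ := hG' x hx
    by_cases hj0 : j = 0
    · exact Or.inl (by rw [hj0, hg0])
    · exact Or.inr ⟨xs j, hg1 j hj0⟩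
  obtain ⟨j, hj, rfl⟩ := hG' x hx
  by_cases hj0 : j = 0
  · subst hj0
    refine ⟨by rw [hg0]; exact (D.E G).one_mem, ?_⟩
    have : (⟨g 0, by rw [hg0]; exact (D.E G).one_mem⟩ : D.E G) = 1 := Subtype.ext hg0
    rw [this]
    exact isUnit_one
  · have h2 : g j ∈ D.E G := by
      rw [hg1 j hj0]
      exact (D.E G).add_mem hyE (D.algebraMap_mem G _)
    refine ⟨h2, ?_⟩
    by_contra hnu
    have h3 : g j ∈ Inf K T :=
      D.maximal_le hk hTd hℓ hℓp hPT h1G h0G ((mem_maximalIdeal _).2 hnu)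
    apply D.add_algebraMap_notMem hy (xs j)
    rw [← hg1 j hj0]
    exact D.inf_mem_O h3

/-- Step F1, F2 without the cardinality. -/
theorem SD.exists_tower (hk : NIP k) {T : Set k} [IsGrp T]
    (hTd : (univ : Set k).Definable₁ Language.ring T) {ℓ : ℕ} (hℓ : ℓ.Prime) (hℓp : ℓ ≠ p)
    (hPT : Pw k ℓ ⊆ T) (D : SD K k T) {y : k}
    (hy : y ∉ D.E {1}) (hy' : y⁻¹ ∉ D.E {1}) :
    ∃ G : Finset k, (1 : k) ∈ G ∧ (∀ g ∈ G, g ≠ 0) ∧ IsLocalRing (D.E G) ∧ y ∈ D.E G ∧
      ∀ g ∈ G, ∃ h : g ∈ D.E G, IsUnit (⟨g, h⟩ : D.E G) := by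
  obtain ⟨n, hn, hIn⟩ := D.exists_InS hk hTd
  obtain ⟨G, _, _, h⟩ := D.exists_tower_card hk hTd hℓ hℓp hPT hn hIn hy hy'
  exact ⟨G, h⟩

end

end Pool.Agent.NIPFields.LS
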