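import Mathlib
import Pool.Agent.NIPFields.LS.Tower
import Pool.Agent.NIPFields.LV.GPrime

set_option autoImplicit false

/-!
# The residue fields of the tower (as `LV/TowerP.lean`)
-/

namespace Pool.Agent.NIPFields.LS

open FirstOrder FirstOrder.Language FirstOrder.Ring Set Filter IsLocalRing
open Pool.Agent.NIPFields.FI
open Pool.Agent.NIPFields.LG (Pw)
open Pool.Agent.NIPFields.LV (TLS TrLe)

universe u v

section

variable {p : ℕ} [hp : Fact p.Prime] {K : Type v} {k : Type u} [Field K]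
  [CharP K p] [Infinite K] [Field k] [Algebra K k] [CompatibleRing k] {T : Set k} [IsGrp T] {ℓ : ℕ}

/-- The set of all `u ≠ 0` in the residue field whose liftings are in `T`. -/
def HT {k : Type u} [Field k] (T : Set k) (E : Subring k) [IsLocalRing E] :
    Set (ResidueField E) :=
  {u | u ≠ 0 ∧ ∀ v : E, residue E v = u → (v : k) ∈ T}

theorem SD.one_add_mem_T (hk : NIP k) (hTd : (univ : Set k).Definable₁ Language.ring T)
    (hℓ : ℓ.Prime) (hℓp : ℓ ≠ p) (hPT : Pw k ℓ ⊆ T) (D : SD K k T) {G : Finset k}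
    (h1 : (1 : k) ∈ G) (h0 : ∀ g ∈ G, g ≠ 0) [IsLocalRing (D.E G)] {z : D.E G}
    (hz : z ∈ maximalIdeal (D.E G)) : 1 + (z : k) ∈ T :=
  hPT (D.one_add_mem_Pw hk hTd hℓ hℓp h1 h0 hz)

theorem mem_HT_iff (hk : NIP k) (hTd : (univ : Set k).Definable₁ Language.ring T) (hℓ : ℓ.Prime)
    (hℓp : ℓ ≠ p) (hPT : Pw k ℓ ⊆ T) (D : SD K k T) {G : Finset k}
    (h1 : (1 : k) ∈ G) (h0 : ∀ g ∈ G, g ≠ 0) [IsLocalRing (D.E G)] {v : D.E G} (hv : IsUnit v) :
    residue (D.E G) v ∈ HT T (D.E G) ↔ (v : k) ∈ T := by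
  constructor
  · intro h
    exact h.2 v rfl
  · intro h
    refine ⟨fun h2 => ?_, fun w hw => ?_⟩
    · rw [residue_eq_zero_iff, mem_maximalIdeal] at h2
      exact h2 hv
    · obtain ⟨c, hc⟩ := hv.exists_right_inv
      have hc' : (v : k) * c = 1 := congrArg Subtype.val hc
      have h3 : w - v ∈ maximalIdeal (D.E G) := by
        rw [← residue_eq_zero_iff, map_sub, hw, sub_self]
      have h4 := D.one_add_mem_T hk hTd hℓ hℓp hPT h1 h0 (Ideal.mul_mem_left _ c h3)
      have h5 : (w : k) = v * (1 + ((c * (w - v) : D.E G) : k)) := by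
        push_cast
        linear_combination (-((w : k) - v)) * hc'
      rw [h5]
      exact T_mul h h4

theorem HT_mul (hk : NIP k) (hTd : (univ : Set k).Definable₁ Language.ring T) (hℓ : ℓ.Prime)
    (hℓp : ℓ ≠ p) (hPT : Pw k ℓ ⊆ T) (D : SD K k T) {G : Finset k}
    (h1 : (1 : k) ∈ G) (h0 : ∀ g ∈ G, g ≠ 0) [IsLocalRing (D.E G)] {u u' : ResidueField (D.E G)}
    (h : u ∈ HT T (D.E G)) (h' : u' ∈ HT T (D.E G)) : u * u' ∈ HT T (D.E G) := by
  obtain ⟨v, rfl⟩ := residue_surjective u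
  obtain ⟨v', rfl⟩ := residue_surjective u'
  have hv : IsUnit v := by
    by_contra hn
    exact h.1 ((residue_eq_zero_iff _).2 ((mem_maximalIdeal _).2 hn))
  have hv' : IsUnit v' := by
    by_contra hn
    exact h'.1 ((residue_eq_zero_iff _).2 ((mem_maximalIdeal _).2 hn))
  rw [← map_mul, mem_HT_iff hk hTd hℓ hℓp hPT D h1 h0 (hv.mul hv'), Subring.coe_mul]
  exact T_mul (h.2 v rfl) (h'.2 v' rfl)

theorem HT_inv (hk : NIP k) (hTd : (univ : Set k).Definable₁ Language.ring T) (hℓ : ℓ.Prime)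
    (hℓp : ℓ ≠ p) (hPT : Pw k ℓ ⊆ T) (D : SD K k T) {G : Finset k}
    (h1 : (1 : k) ∈ G) (h0 : ∀ g ∈ G, g ≠ 0) [IsLocalRing (D.E G)] {u : ResidueField (D.E G)}
    (h : u ∈ HT T (D.E G)) : u⁻¹ ∈ HT T (D.E G) := by
  obtain ⟨v, rfl⟩ := residue_surjective u
  have hv : IsUnit v := by
    by_contra hn
    exact h.1 ((residue_eq_zero_iff _).2 ((mem_maximalIdeal _).2 hn))
  obtain ⟨w, hw⟩ := hv.exists_right_inv
  have hwu : IsUnit w := IsUnit.of_mul_eq_one v (by rw [mul_comm]; exact hw)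
  have h2 : (residue (D.E G) v)⁻¹ = residue (D.E G) w := by
    refine inv_eq_of_mul_eq_one_right ?_
    rw [← map_mul, hw, map_one]
  have h3 : (v : k) * w = 1 := congrArg Subtype.val hw
  rw [h2, mem_HT_iff hk hTd hℓ hℓp hPT D h1 h0 hwu, eq_inv_of_mul_eq_one_right h3]
  exact T_inv (h.2 v rfl)

theorem HT_one (hk : NIP k) (hTd : (univ : Set k).Definable₁ Language.ring T) (hℓ : ℓ.Prime)
    (hℓp : ℓ ≠ p) (hPT : Pw k ℓ ⊆ T) (D : SD K k T) {G : Finset k}
    (h1 : (1 : k) ∈ G) (h0 : ∀ g ∈ G, g ≠ 0) [IsLocalRing (D.E G)] :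
    (1 : ResidueField (D.E G)) ∈ HT T (D.E G) := by
  rw [← map_one (residue (D.E G)), mem_HT_iff hk hTd hℓ hℓp hPT D h1 h0 isUnit_one, Subring.coe_one]
  exact T_one

/-- Step F: a ring of the tower whose residue field violates `TL` for the group `HT`. -/
theorem exists_tower_TLS (hk : NIP k) (hTd : (univ : Set k).Definable₁ Language.ring T) (hℓ : ℓ.Prime)
    (hℓp : ℓ ≠ p) (hPT : Pw k ℓ ⊆ T) (D : SD K k T)
    {y : k} (hy : y ∉ D.E {1}) (hy' : y⁻¹ ∉ D.E {1}) :
    ∃ (G : Finset k) (_ : IsLocalRing (D.E G)), (1 : k) ∈ G ∧ (∀ g ∈ G, g ≠ 0) ∧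
      ¬ TLS (ResidueField (D.E G)) (HT T (D.E G)) := by
  classical
  obtain ⟨G, h1G, h0G, hloc, hyE, hGu⟩ := D.exists_tower hk hTd hℓ hℓp hPT hy hy'
  obtain ⟨F', hF'⟩ := D.exists_UGd
  have h1I : (1 : k) ∉ D.I G := fun h => one_notMem (D.I_le_J h1G h)
  -- `I` is the maximal ideal
  have hMI : ∀ z : D.E G, z ∈ maximalIdeal (D.E G) → (z : k) ∈ D.I G := by
    intro z hz g hg
    obtain ⟨hgE, hgu⟩ := hGu g hg
    obtain ⟨v, hv⟩ := hgu.exists_right_inv
    have h2 : g * (v : k) = 1 := congrArg Subtype.val hv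
    have h3 : (z : k) / g = ((v * z : D.E G) : k) := by
      have := h0G g hg
      rw [Subring.coe_mul, div_eq_iff this, mul_comm (v : k), mul_assoc, mul_comm (v : k), h2,
        mul_one]
    rw [h3]
    exact D.maximal_le hk hTd hℓ hℓp hPT h1G h0G (Ideal.mul_mem_left _ _ hz)
  have hIM : ∀ d, d ∈ D.I G → ∃ h : d ∈ D.E G, (⟨d, h⟩ : D.E G) ∈ maximalIdeal (D.E G) := by
    intro d hd
    refine ⟨D.I_le_E h1G hd, ?_⟩
    rw [mem_maximalIdeal]
    intro hu
    obtain ⟨v, hv⟩ := hu.exists_left_inv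
    apply h1I
    have h2 : (v : k) * d = 1 := congrArg Subtype.val hv
    rw [← h2]
    exact v.2 d hd
  have hIU : ∀ d, d ∈ D.I G ↔ ∀ g ∈ G, d / g ∈ UT K T F' := by
    intro d
    refine ⟨fun hd g hg => Inf_subset_UT F' (hd g hg), fun hd => ?_⟩
    have hdJ : ∀ j ∈ Inf K T, d * j ∈ D.I G := by
      intro j hj g hg
      have h2 := D.mem_O.1 (hF'.mem_O D (hd g hg)) j hj
      have h3 : d * j / g = d / g * j := by ring
      rw [h3]
      exact h2
    have hdE : d ∈ D.E G := fun x hx => hdJ x (D.I_le_J h1G hx)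
    apply hMI ⟨d, hdE⟩
    rw [mem_maximalIdeal]
    intro hu
    obtain ⟨v, hv⟩ := hu.exists_left_inv
    have h2 : (v : k) * d = 1 := congrArg Subtype.val hv
    apply hy
    rw [D.mem_O]
    intro j hj
    have h3 := v.2 _ (hdJ j hj)
    rw [← mul_assoc, h2, one_mul] at h3
    exact D.I_le_J h1G (hyE j h3)
  refine ⟨G, hloc, h1G, h0G, ?_⟩
  intro hTL
  have hinv : ∀ g ∈ G, g⁻¹ ∈ D.E G := by
    intro g hg
    obtain ⟨hgE, hgu⟩ := hGu g hg
    obtain ⟨v, hv⟩ := hgu.exists_right_inv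
    have h2 : g * (v : k) = 1 := congrArg Subtype.val hv
    rw [← eq_inv_of_mul_eq_one_right h2]
    exact v.2
  let r : K × k → ResidueField (D.E G) := fun x =>
    if h : algebraMap K k x.1 * x.2⁻¹ ∈ D.E G then residue (D.E G) ⟨_, h⟩ else 0
  obtain ⟨δ, hδ, hδA⟩ := hTL ((F' ×ˢ G).image r)
  obtain ⟨d, rfl⟩ := residue_surjective δ
  have hdM : d ∉ maximalIdeal (D.E G) := fun h => hδ ((residue_eq_zero_iff _).2 h)
  apply hdM
  obtain ⟨h, h'⟩ := hIM d ((hIU d).2 fun g hg f hf => by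
    have h2 : algebraMap K k f * g⁻¹ ∈ D.E G :=
      (D.E G).mul_mem (D.algebraMap_mem G f) (hinv g hg)
    have h3 : r (f, g) = residue (D.E G) ⟨_, h2⟩ := dif_pos h2
    have h4 := hδA (r (f, g)) (Finset.mem_image_of_mem _ (Finset.mem_product.2 ⟨hf, hg⟩))
    rw [h3, ← map_one (residue (D.E G)), ← map_mul, ← map_add] at h4
    have h5 := h4.2 _ rfl
    have h6 : ((1 + ⟨_, h2⟩ * d : D.E G) : k) = 1 + algebraMap K k f * ((d : k) / g) := by
      push_cast
      ring
    rw [h6] at h5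
    exact h5)
  exact h'

/-- The number of traces on the residue field. -/
theorem trLe_HT (hk : NIP k) (hTd : (univ : Set k).Definable₁ Language.ring T) (hℓ : ℓ.Prime)
    (hℓp : ℓ ≠ p) (hPT : Pw k ℓ ⊆ T) (D : SD K k T) {G : Finset k}
    (h1 : (1 : k) ∈ G) (h0 : ∀ g ∈ G, g ≠ 0) [IsLocalRing (D.E G)] {f : ℕ → ℕ}
    (h : TrLe k T f) :
    TrLe (ResidueField (D.E G)) (HT T (D.E G)) fun m => f m + m := by
  classical
  intro m b
  choose b' hb' using fun j => residue_surjective (R := D.E G) (b j)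
  let c : Fin m → k := fun j => (b' j : k)
  let 𝓔 : Set (Finset (Fin m)) := Set.range fun i : Fin m =>
    Finset.univ.filter fun j => 1 + b j * (-(b i)⁻¹) ∈ HT T (D.E G)
  have hsub : {J' : Finset (Fin m) | ∃ x : ResidueField (D.E G),
      ∀ j, (1 + b j * x ∈ HT T (D.E G) ↔ j ∈ J')} ⊆
      {J' : Finset (Fin m) | ∃ x : k, ∀ j, (1 + c j * x ∈ T ↔ j ∈ J')} ∪ 𝓔 := by
    rintro J' ⟨x, hx⟩
    by_cases h00 : ∃ i, 1 + b i * x = 0
    · right
      obtain ⟨i, hi⟩ := h00
      refine ⟨i, ?_⟩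
      have hbi : b i ≠ 0 := by
        intro h1
        rw [h1, zero_mul, add_zero] at hi
        exact one_ne_zero hi
      have hxi : x = -(b i)⁻¹ := by
        field_simp
        linear_combination hi
      ext j
      simp only [Finset.mem_filter, Finset.mem_univ, true_and]
      rw [← hxi]
      exact hx j
    · left
      push Not at h00
      obtain ⟨x', hx'⟩ := residue_surjective (R := D.E G) x
      refine ⟨x', fun j => ?_⟩
      rw [← hx j]
      have e1 : residue (D.E G) (1 + b' j * x') = 1 + b j * x := by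
        rw [map_add, map_mul, map_one, hb', hx']
      have e2 : IsUnit (1 + b' j * x') := by
        by_contra h3
        apply h00 j
        rw [← e1]
        exact (residue_eq_zero_iff _).2 ((mem_maximalIdeal _).2 h3)
      rw [← e1, mem_HT_iff hk hTd hℓ hℓp hPT D h1 h0 e2]
      have e3 : ((1 + b' j * x' : D.E G) : k) = 1 + c j * x' := by
        simp only [c]
        push_cast
        ring
      rw [e3]
  refine (Set.ncard_le_ncard hsub (Set.toFinite _)).trans ((Set.ncard_union_le _ _).trans ?_)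
  refine Nat.add_le_add (h m c) ?_
  have e1 : 𝓔 = (fun i : Fin m => Finset.univ.filter fun j =>
      1 + b j * (-(b i)⁻¹) ∈ HT T (D.E G)) '' Set.univ := Set.image_univ.symm
  rw [e1]
  refine (Set.ncard_image_le (Set.toFinite _)).trans ?_
  rw [Set.ncard_univ, Nat.card_eq_fintype_card, Fintype.card_fin]

end

end Pool.Agent.NIPFields.LS
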