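import Mathlib
import Pool.Agent.NIPFields.LS.Tower
import Pool.Agent.NIPFields.LC.Final

set_option autoImplicit false

/-!
# The ring of bounded elements is a definable valuation ring (as `LG/Final.lean`)
-/

namespace Pool.Agent.NIPFields.LS

open FirstOrder FirstOrder.Language FirstOrder.Ring Set Filter IsLocalRing
open Pool.Agent.NIPFields.FI
open Pool.Agent.NIPFields.LG (Pw)

universe u v w

/-- Step G: the ring of bounded elements is a valuation ring. -/
theorem SD.exists_definable_of_val {p : ℕ} [hp : Fact p.Prime] {K : Type v} {k : Type u} [Field K]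
    [CharP K p] [Infinite K] [Field k] [Algebra K k] [CompatibleRing k] (hk : NIP k) {T : Set k}
    [IsGrp T] (hTd : (univ : Set k).Definable₁ Language.ring T) {ℓ : ℕ} (hℓ : ℓ.Prime)
    (hℓp : ℓ ≠ p) (hPT : Pw k ℓ ⊆ T) (D : SD K k T) (hval : ∀ y, y ∈ D.E {1} ∨ y⁻¹ ∈ D.E {1}) :
    ∃ O : ValuationSubring k, O ≠ ⊤ ∧ (univ : Set k).Definable₁ Language.ring {x | x ∈ O} := by
  have hchk : CharP k p := charP_of_injective_algebraMap (algebraMap K k).injective p
  have hloc : IsLocalRing (D.E {1}) := D.isLocalRing hk hTd (Finset.mem_singleton_self 1)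
    (by simp)
  let O : ValuationSubring k :=
    { D.E {1} with
      mem_or_inv_mem' := hval }
  have hmem : ∀ x, x ∈ O ↔ x ∈ D.E {1} := fun _ => Iff.rfl
  have hO : O ≠ ⊤ := by
    intro htop
    obtain ⟨ε, hε, h⟩ := D.small {1}
    have h1 := h 1 (Finset.mem_singleton_self 1)
    rw [one_mul] at h1
    have h2 : ε⁻¹ ∈ O := by rw [htop]; trivial
    have h3 := D.mem_O.1 ((hmem _).1 h2) ε h1
    rw [inv_mul_cancel₀ hε] at h3
    exact one_notMem h3
  have hcomp : Compat ℓ O := by
    refine ⟨hO, fun m hm => ?_⟩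
    have hmO : m ∈ O := (O.valuation_le_one_iff m).1 hm.le
    have h1 : (⟨m, (hmem m).1 hmO⟩ : D.E {1}) ∈ maximalIdeal (D.E {1}) := by
      rw [mem_maximalIdeal]
      intro hu
      obtain ⟨v, hv⟩ := hu.exists_right_inv
      have h2 : m * (v : k) = 1 := congrArg Subtype.val hv
      have h3 : (v : k) ∈ O := (hmem _).2 v.2
      have h4 : O.valuation (v : k) ≤ 1 := (O.valuation_le_one_iff _).2 h3
      have h5 : O.valuation m * O.valuation (v : k) = 1 := by rw [← map_mul, h2, map_one]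
      have h6 : O.valuation m * O.valuation (v : k) < 1 :=
        lt_of_le_of_lt (mul_le_of_le_one_right' h4) hm
      exact absurd h5 h6.ne
    obtain ⟨b, _, hb⟩ := D.one_add_mem_Pw hk hTd hℓ hℓp (Finset.mem_singleton_self 1) (by simp) h1
    exact ⟨b, hb⟩
  have hℓk : (ℓ : k) ≠ 0 := by
    intro h
    exact hℓp ((Nat.prime_dvd_prime_iff_eq hp.out hℓ).1 ((CharP.cast_eq_zero_iff k p ℓ).1 h)).symm
  refine exists_definable_valuationSubring (p := p) hℓk ⟨O, hcomp⟩ ?_
  obtain ⟨a, ha, haP⟩ := D.ne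
  have ha' : algebraMap K k a ≠ 0 := (map_ne_zero _).2 ha
  refine ⟨algebraMap K k a, ha', fun y hy => haP (hPT ⟨y, ?_, hy⟩)⟩
  rintro rfl
  rw [zero_pow hℓ.ne_zero] at hy
  exact ha' hy

end Pool.Agent.NIPFields.LS
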