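import Mathlib
import Pool.Agent.NIPFields.LS.TowerP
import Pool.Agent.NIPFields.LS.Val
import Pool.Agent.NIPFields.LS.Germ
import Pool.Agent.NIPFields.RB.Tls
import Pool.Agent.NIPFields.LV.FinalP

set_option autoImplicit false

/-!
# The rainbow criterion for definable subgroups (as `RB/Crit.lean`)
-/

namespace Pool.Agent.NIPFields.LS

open FirstOrder FirstOrder.Language FirstOrder.Ring Set Filter IsLocalRing
open Pool.Agent.NIPFields.FI Pool.Agent.NIPFields.RB
open Pool.Agent.NIPFields.LG (Pw)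
open Pool.Agent.NIPFields.LV (TLS TrLe Small)

universe u

attribute [local instance] germAlg

/-- Transfer to the ultrapower. -/
theorem noRainbow_germ {L : Type u} [Field L] [DecidableEq (Germ (UF L : Filter (Finset L)) L)]
    {T : Set L} {B : Finset L} (hB : NoRainbow T B) :
    NoRainbow (TE T)
      (B.image (algebraMap L (Germ (UF L : Filter (Finset L)) L))) := by
  classical
  intro c hc
  induction c using Germ.inductionOn with | _ f
  have h1 : ∀ᶠ t in (UF L : Filter (Finset L)), ∀ b ∈ B, f t + b ≠ 0 := by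
    rw [Filter.eventually_all_finset]
    intro b hb
    have h2 := hc _ (Finset.mem_image_of_mem _ hb)
    rw [Ultrafilter.eventually_not]
    intro h3
    apply h2
    have h4 : (↑f + algebraMap L (Germ (UF L : Filter (Finset L)) L) b) =
        ((fun t => f t + b : Finset L → L) : Germ (UF L : Filter (Finset L)) L) := rfl
    rw [h4, ← Germ.coe_zero, Germ.coe_eq]
    exact h3
  have h2 : ∀ᶠ t in (UF L : Filter (Finset L)), ∃ x ∈ ((B ×ˢ B : Finset (L × L)) : Set (L × L)),
      x.1 ≠ x.2 ∧ (f t + x.1) / (f t + x.2) ∈ T := by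
    filter_upwards [h1] with t ht
    obtain ⟨b, hb, b', hb', hne, h⟩ := hB (f t) ht
    exact ⟨(b, b'), Finset.mem_coe.2 (Finset.mem_product.2 ⟨hb, hb'⟩), hne, h⟩
  rw [Ultrafilter.eventually_exists_mem_iff (Finset.finite_toSet _)] at h2
  obtain ⟨⟨b, b'⟩, hbb, h3⟩ := h2
  obtain ⟨hb, hb'⟩ := Finset.mem_product.1 (Finset.mem_coe.1 hbb)
  refine ⟨_, Finset.mem_image_of_mem _ hb, _, Finset.mem_image_of_mem _ hb', ?_, ?_⟩
  · intro h
    obtain ⟨t, ht⟩ := h3.exists
    exact ht.1 ((algebraMap L (Germ (UF L : Filter (Finset L)) L)).injective h)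
  · have h4 : (↑f + algebraMap L (Germ (UF L : Filter (Finset L)) L) b) /
        (↑f + algebraMap L (Germ (UF L : Filter (Finset L)) L) b') =
        ((fun t => (f t + b) / (f t + b') : Finset L → L) :
          Germ (UF L : Filter (Finset L)) L) := rfl
    rw [h4, mem_TE]
    filter_upwards [h3] with t ht
    exact ht.2

/-- Transfer to the residue fields of the tower. -/
theorem noRainbow_residue {p : ℕ} [hp : Fact p.Prime] {K k : Type u} [Field K]
    [CharP K p] [Infinite K] [Field k] [Algebra K k] [CompatibleRing k] [DecidableEq k] {T : Set k}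
    [IsGrp T] {ℓ : ℕ} (hk : NIP k) (hTd : (univ : Set k).Definable₁ Language.ring T)
    (hℓ : ℓ.Prime) (hℓp : ℓ ≠ p) (hPT : Pw k ℓ ⊆ T) (D : SD K k T) {G : Finset k}
    (h1 : (1 : k) ∈ G) (h0 : ∀ g ∈ G, g ≠ 0) [IsLocalRing (D.E G)]
    [DecidableEq (ResidueField (D.E G))] {B : Finset K}
    (hB : NoRainbow T (B.image (algebraMap K k))) :
    NoRainbow (HT T (D.E G)) (B.image fun b =>
      IsLocalRing.residue (D.E G) ⟨algebraMap K k b, D.algebraMap_mem G b⟩) := by
  intro c hc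
  obtain ⟨c, rfl⟩ := residue_surjective c
  have hu : ∀ b ∈ B, IsUnit (c + (⟨algebraMap K k b, D.algebraMap_mem G b⟩ : D.E G)) := by
    intro b hb
    by_contra hn
    apply hc _ (Finset.mem_image_of_mem _ hb)
    rw [← map_add]
    exact (residue_eq_zero_iff _).2 ((mem_maximalIdeal _).2 hn)
  have hne : ∀ b ∈ B, (c : k) + algebraMap K k b ≠ 0 := by
    intro b hb h
    apply (hu b hb).ne_zero
    exact Subtype.ext h
  obtain ⟨x, hx, x', hx', hxx, h⟩ := hB (c : k) (by
    intro x hx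
    obtain ⟨b, hb, rfl⟩ := Finset.mem_image.1 hx
    exact hne b hb)
  obtain ⟨b, hb, rfl⟩ := Finset.mem_image.1 hx
  obtain ⟨b', hb', rfl⟩ := Finset.mem_image.1 hx'
  obtain ⟨w, hw⟩ := (hu b' hb').exists_right_inv
  set a : D.E G := c + (⟨algebraMap K k b, D.algebraMap_mem G b⟩ : D.E G) with ha
  set a' : D.E G := c + (⟨algebraMap K k b', D.algebraMap_mem G b'⟩ : D.E G) with ha'
  have hw' : (a' : k) * w = 1 := congrArg Subtype.val hw
  have hwu : IsUnit w := IsUnit.of_mul_eq_one a' (by rw [mul_comm]; exact hw)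
  refine ⟨_, Finset.mem_image_of_mem _ hb, _, Finset.mem_image_of_mem _ hb', ?_, ?_⟩
  · intro h2
    apply hxx
    let φ : K →+* ResidueField (D.E G) := (IsLocalRing.residue (D.E G)).comp
      ((algebraMap K k).codRestrict (D.E G) (D.algebraMap_mem G))
    have h3 : φ b = φ b' := h2
    rw [φ.injective h3]
  · rw [← map_add, ← map_add]
    have h2 : (IsLocalRing.residue (D.E G) a')⁻¹ = IsLocalRing.residue (D.E G) w := by
      refine inv_eq_of_mul_eq_one_right ?_
      rw [← map_mul, hw, map_one]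
    rw [div_eq_mul_inv, h2, ← map_mul, mem_HT_iff hk hTd hℓ hℓp hPT D h1 h0 ((hu b hb).mul hwu)]
    have h3 : ((a * w : D.E G) : k) = (a : k) / a' := by
      rw [Subring.coe_mul, div_eq_mul_inv, eq_inv_of_mul_eq_one_right hw']
    rw [h3]
    exact h

/-- Theorem R for a definable group which contains the `ℓ`-th powers. -/
theorem theoremRS_prime {p : ℕ} [hp : Fact p.Prime] {K : Type u} [Field K] [Infinite K]
    [CompatibleRing K] (hK : NIP K) [CharP K p] {L : Type u} [Field L] [Algebra K L]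
    [FiniteDimensional K L] [CompatibleRing L] {T : Set L} [IsGrp T]
    (hTd : (univ : Set L).Definable₁ Language.ring T) (hne : ∃ a : L, a ≠ 0 ∧ a ∉ T)
    {ℓ : ℕ} (hℓ : ℓ.Prime) (hℓp : ℓ ≠ p) (hPT : Pw L ℓ ⊆ T)
    {B : Finset L} (hB : NoRainbow T B) :
    ∃ O : ValuationSubring K, O ≠ ⊤ ∧ HenselianLocalRing O ∧
      (univ : Set K).Definable₁ Language.ring {x | x ∈ O} := by
  classical
  have hL : NIP L := hK.finite (Module.finBasis K L)
  have hinf : Infinite L := Infinite.of_injective _ (algebraMap K L).injective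
  have hchL : CharP L p := charP_of_injective_algebraMap (algebraMap K L).injective p
  obtain ⟨d, hd, hTrL⟩ := trLe_T hL hTd
  have hTL : TLS L T := tls_of_noRainbow (fun _ hx => T_ne hx) T_one
    (fun _ hx _ hy => T_mul hx hy) (fun _ hx => T_inv hx) hB (by omega) (PQ.tendsto_binom d) hTrL
  let E := Germ (UF L : Filter (Finset L)) L
  let _ : CompatibleRing E := germCompat (UF L) L
  have hE : NIP E := NIP.germ hL
  have D : SD L E (TE T) := sd_germ hL hTd hTL hne
  have hTEd : (univ : Set E).Definable₁ Language.ring (TE T) := germ_definable hTd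
  have hPE : Pw E ℓ ⊆ TE T := Pw_subset_TE hPT
  obtain ⟨e, he, hTrE⟩ := trLe_T hE hTEd
  obtain ⟨O₁, h₁, hd₁⟩ := D.exists_definable_of_val hE hTEd hℓ hℓp hPE fun y => by
    by_contra hcon
    rw [not_or] at hcon
    obtain ⟨G, hloc, h1, h0, hn⟩ := exists_tower_TLS hE hTEd hℓ hℓp hPE D hcon.1 hcon.2
    let φ : L →+* ResidueField (D.E G) := (residue (D.E G)).comp
      ((algebraMap L E).codRestrict (D.E G) (D.algebraMap_mem G))
    have hinf' : Infinite (ResidueField (D.E G)) := Infinite.of_injective φ φ.injective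
    exact hn (tls_of_noRainbow (fun x hx => hx.1) (HT_one hE hTEd hℓ hℓp hPE D h1 h0)
      (fun x hx y hy => HT_mul hE hTEd hℓ hℓp hPE D h1 h0 hx hy)
      (fun x hx => HT_inv hE hTEd hℓ hℓp hPE D h1 h0 hx)
      (noRainbow_residue hE hTEd hℓ hℓp hPE D h1 h0 (noRainbow_germ hB)) (by omega)
      (Small.add he (PQ.tendsto_binom e)) (trLe_HT hE hTEd hℓ hℓp hPE D h1 h0 hTrE))
  obtain ⟨O', hO'1, hO'2⟩ := exists_definable_of_germ O₁ h₁ hd₁
  obtain ⟨O, hO1, hO2⟩ := LC.exists_definable_restrict (K := K) hO'1 hO'2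
  exact ⟨O, hO1, hK.henselian_of_definable p hO1 hO2, hO2⟩

/-- The product of a group and the group of the `ℓ`-th powers. -/
def TPw {L : Type u} [Field L] (T : Set L) (ℓ : ℕ) : Set L :=
  {x | ∃ t b : L, t ∈ T ∧ b ≠ 0 ∧ x = t * b ^ ℓ}

instance {L : Type u} [Field L] {T : Set L} [IsGrp T] {ℓ : ℕ} : IsGrp (TPw T ℓ) where
  one := ⟨1, 1, T_one, one_ne_zero, by simp⟩
  ne := by
    rintro _ ⟨t, b, ht, hb, rfl⟩
    exact mul_ne_zero (T_ne ht) (pow_ne_zero _ hb)
  mul := by
    rintro _ ⟨t, b, ht, hb, rfl⟩ _ ⟨t', b', ht', hb', rfl⟩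
    exact ⟨t * t', b * b', T_mul ht ht', mul_ne_zero hb hb', by ring⟩
  inv := by
    rintro _ ⟨t, b, ht, hb, rfl⟩
    refine ⟨t⁻¹, b⁻¹, T_inv ht, inv_ne_zero hb, ?_⟩
    rw [mul_inv, inv_pow]

theorem def_TPw {L : Type u} [Field L] [CompatibleRing L] {T : Set L}
    (hTd : (univ : Set L).Definable₁ Language.ring T) (ℓ : ℕ) :
    (univ : Set L).Definable₁ Language.ring (TPw T ℓ) := by
  have e1 : (univ : Set L).Definable Language.ring
      {w : Fin 1 ⊕ Fin 2 → L | w (Sum.inr 1) = 0} :=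
    Set.DefinableFun.ofPred_eq (dfun_var _) dfun_zero
  have e2 : (univ : Set L).Definable Language.ring
      {w : Fin 1 ⊕ Fin 2 → L | w (Sum.inl 0) = w (Sum.inr 0) * w (Sum.inr 1) ^ ℓ} :=
    Set.DefinableFun.ofPred_eq (dfun_var _) (dfun_mul (dfun_var _) (dfun_pow (dfun_var _) ℓ))
  have e3 : (univ : Set L).Definable Language.ring
      {w : Fin 1 ⊕ Fin 2 → L | w (Sum.inr 0) ∈ T} := def_mem hTd (dfun_var _)
  have h := ((e1.compl.inter e2).inter e3).exists_of_finite
  unfold Definable₁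
  convert h using 1
  ext v
  constructor
  · rintro ⟨t, b, ht, hb, hv⟩
    exact ⟨![t, b], ⟨hb, hv⟩, ht⟩
  · rintro ⟨u, ⟨hu1, hu2⟩, hu3⟩
    exact ⟨u 0, u 1, hu3, hu1, hu2⟩

/-- A nontrivial abelian group of exponent `n` is not `ℓ`-divisible for some prime `ℓ ∣ n`. -/
theorem exists_prime_TPw {L : Type u} [Field L] {T : Set L} [IsGrp T]
    (hne : ∃ a : L, a ≠ 0 ∧ a ∉ T) {n : ℕ} (hn : n ≠ 0) (hT : ∀ x : L, x ≠ 0 → x ^ n ∈ T) :
    ∃ ℓ : ℕ, ℓ.Prime ∧ ℓ ∣ n ∧ ∃ a : L, a ≠ 0 ∧ a ∉ TPw T ℓ := by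
  by_contra hcon
  push Not at hcon
  obtain ⟨a, ha, haT⟩ := hne
  apply haT
  have key : ∀ m : ℕ, m ∣ n → ∀ x : L, x ≠ 0 → ∃ t ∈ T, ∃ b : L, b ≠ 0 ∧ x = t * b ^ m := by
    intro m
    induction m using Nat.recOnMul with
    | zero =>
      intro h
      exact absurd (Nat.eq_zero_of_zero_dvd h) hn
    | one =>
      intro _ x hx
      exact ⟨1, T_one, x, hx, by simp⟩
    | prime q hq =>
      intro hqn x hx
      obtain ⟨t, b, ht, hb, h⟩ := hcon q hq hqn x hx
      exact ⟨t, ht, b, hb, h⟩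
    | mul c d ihc ihd =>
      intro h x hx
      obtain ⟨t, ht, b, hb, hxb⟩ := ihc (dvd_trans (dvd_mul_right c d) h) x hx
      obtain ⟨t', ht', b', hb', hbb⟩ := ihd (dvd_trans (dvd_mul_left d c) h) b hb
      refine ⟨t * t' ^ c, ?_, b', hb', ?_⟩
      · refine T_mul ht ?_
        have : ∀ j : ℕ, t' ^ j ∈ T := by
          intro j
          induction j with
          | zero => rw [pow_zero]; exact T_one
          | succ j ih => rw [pow_succ]; exact T_mul ih ht'
        exact this c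
      · rw [hxb, hbb, mul_pow, ← pow_mul, mul_assoc, mul_comm d c]
  obtain ⟨t, ht, b, hb, hab⟩ := key n dvd_rfl a ha
  rw [hab]
  exact T_mul ht (hT b hb)

/-- **Theorem R for definable subgroups.** If `T ≠ Lˣ` is a definable subgroup of `Lˣ` which
contains the `n`-th powers for some `n` prime to the characteristic, and some finite subset of `L`
has no `T`-rainbow translate, then `K` has a definable henselian valuation. -/
theorem theoremRS {p : ℕ} [hp : Fact p.Prime] {K : Type u} [Field K] [Infinite K]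
    [CompatibleRing K] (hK : NIP K) [CharP K p] {L : Type u} [Field L] [Algebra K L]
    [FiniteDimensional K L] [CompatibleRing L] {T : Set L} [IsGrp T]
    (hTd : (univ : Set L).Definable₁ Language.ring T) (hne : ∃ a : L, a ≠ 0 ∧ a ∉ T)
    {n : ℕ} (hn : n.Coprime p) (hT : ∀ x : L, x ≠ 0 → x ^ n ∈ T)
    {B : Finset L} (hB : NoRainbow T B) :
    ∃ O : ValuationSubring K, O ≠ ⊤ ∧ HenselianLocalRing O ∧
      (univ : Set K).Definable₁ Language.ring {x | x ∈ O} := by
  have hn0 : n ≠ 0 := by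
    rintro rfl
    rw [Nat.coprime_zero_left] at hn
    exact hp.out.ne_one hn
  obtain ⟨ℓ, hℓ, hℓn, ha⟩ := exists_prime_TPw hne hn0 hT
  have hℓp : ℓ ≠ p := by
    rintro rfl
    have := Nat.Coprime.coprime_dvd_left hℓn hn
    rw [Nat.coprime_self] at this
    exact hℓ.ne_one this
  refine theoremRS_prime hK (def_TPw hTd ℓ) ha hℓ hℓp ?_ (B := B) ?_
  · rintro _ ⟨b, hb, rfl⟩
    exact ⟨1, b, T_one, hb, by simp⟩
  · intro c hc
    obtain ⟨b, hb, b', hb', hne', h⟩ := hB c hc
    exact ⟨b, hb, b', hb', hne', _, 1, h, one_ne_zero, by simp⟩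

end Pool.Agent.NIPFields.LS
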